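import Pool.Agent.Q236.UL.ShpLaw
import Pool.Agent.Y879.GL.QuadU
import Pool.Agent.Q236.JC.Sys

set_option autoImplicit false

/-!
# The shapes of consecutive almost prime quadruples are independent: `1/3` and `2/3`

A system is a finite set `S` of polynomials; `m` is good for `S` if no `f (m)`, `f ∈ S`, has a prime factor
`≤ X ^ (1 / r)`. Let `S_1, …, S_g` be any admissible systems no two of which are translates of each other, and call
`m` a point if it is good for some of them; its types are the `i` with `m` good for `S_i`. Then the successive points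
have independent types, type `i` occurring with the probability `W_i / ∑ W`, and independent exponential gaps,
independent of the types as well. The law holds seen from the points of any given type, in all intervals
`(Z, Z + Y]`, `Y ≥ X ^ θ`.

Applied to the two shapes of prime quadruples, `(m, m + 2, m + 6, m + 8)` and `(m, m + 4, m + 6, m + 10)`, for which
`W_2 = 2 W_1` exactly: consecutive almost prime quadruples choose their shapes like independent coin tosses with the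
probabilities `1/3` and `2/3`, also given their distances; in particular the second shape is twice as frequent as the
first one.

Method: the joint Poisson law for several systems (`Pool.Agent.Q236.UL`), occupation of cells, and the inversion
from all integers to the points of one type (`Pool.Agent.Q236.UL.Palm`).
-/

namespace Pool.Agent.Results.MP_092512_nt.IndependentShapes

open Finset Filter Polynomial

/-- The number `ω_S(p)` of the residues `n` modulo `p` for which `p` divides the product of the `f (n)`, `f ∈ S`. -/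
def ω (S : Finset ℤ[X]) (p : ℕ) : ℕ :=
  ((Finset.range p).filter (fun n : ℕ => (p : ℤ) ∣ ∏ f ∈ S, f.eval (n : ℤ))).card

/-- The product of `1 - ω_S(p) / p` over the primes `p ≤ y`. -/
noncomputable def W (y : ℝ) (S : Finset ℤ[X]) : ℝ :=
  ∏ p ∈ (Finset.Icc 1 ⌊y⌋₊).filter Nat.Prime, (1 - (ω S p : ℝ) / p)

/-- A nonempty set of at most `k` irreducible polynomials of degrees between `1` and `D` with positive leading
coefficients, without fixed prime divisor. -/
structure Admissible (k D : ℕ) (S : Finset ℤ[X]) : Prop where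
  nonempty : S.Nonempty
  card : S.card ≤ k
  irr : ∀ f ∈ S, Irreducible f
  deg : ∀ f ∈ S, 0 < f.natDegree ∧ f.natDegree ≤ D
  lead : ∀ f ∈ S, 0 < f.leadingCoeff
  adm : ∀ p : ℕ, p.Prime → ω S p < p

/-- The set of the polynomials `f (x + h)`, `f ∈ S`. -/
noncomputable def translate (h : ℕ) (S : Finset ℤ[X]) : Finset ℤ[X] := S.image (fun f => f.comp (X + C (h : ℤ)))

/-- No prime `p ≤ X ^ (1 / r)` divides any of the `f (m)`, `f ∈ S`. -/
def Good (X : ℕ) (S : Finset ℤ[X]) (r m : ℕ) : Prop :=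
  ∀ p : ℕ, p.Prime → (p : ℝ) ≤ (X : ℝ) ^ (1 / (r : ℝ)) → ∀ f ∈ S, ¬ (p : ℤ) ∣ f.eval (m : ℤ)

/-- `m'` is the next number after `m` which is good for some system. -/
def Next {g : ℕ} (X r : ℕ) (S : Fin g → Finset ℤ[X]) (m m' : ℕ) : Prop :=
  m < m' ∧ (∃ i, Good X (S i) r m') ∧ ∀ c, m < c → c < m' → ∀ i, ¬ Good X (S i) r c

/-- The `J` next points `x_1 < x_2 < … < x_J` after `m = x_0` are good for the systems `a_0, …, a_{J-1}`, and the
gaps are larger than `T_0, …, T_{J-1}`. -/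
def Run {g J : ℕ} (X r : ℕ) (S : Fin g → Finset ℤ[X]) (a : Fin J → Fin g) (T : Fin J → ℕ) (m : ℕ) : Prop :=
  ∃ x : ℕ → ℕ, x 0 = m ∧ ∀ j : Fin J, Next X r S (x j) (x (j + 1)) ∧ Good X (S (a j)) r (x (j + 1)) ∧
    x j + T j < x (j + 1)

/-- The sum of the densities. -/
noncomputable def total {g : ℕ} (X r : ℕ) (S : Fin g → Finset ℤ[X]) : ℝ := ∑ i, W ((X : ℝ) ^ (1 / (r : ℝ))) (S i)

open Classical in
/-- The number of the `m` in `(Z, Z + Y]` which are good for `S i` and for which the next points have the types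
`a_0, …, a_{J-1}` and gaps larger than `T_0, …, T_{J-1}` is
`Y W(S_i) ∏ (W(S_{a_j}) / total) exp(- total ∑ T_j)` up to an error of at most `ε Y total`. -/
def Law {g J : ℕ} (X r : ℕ) (S : Fin g → Finset ℤ[X]) (Λ ε : ℝ) (Z Y : ℕ) : Prop :=
  ∀ (i : Fin g) (a : Fin J → Fin g) (T : Fin J → ℕ), (∀ j, T j * total X r S ≤ Λ) →
    |(((Finset.Ioc Z (Z + Y)).filter (fun m => Good X (S i) r m ∧ Run X r S a T m)).card : ℝ) -
      Y * W ((X : ℝ) ^ (1 / (r : ℝ))) (S i) * ((∏ j, (W ((X : ℝ) ^ (1 / (r : ℝ))) (S (a j)) / total X r S)) *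
        Real.exp (-∑ j, T j * total X r S))| ≤ ε * (Y * total X r S)

/-- The polynomials `x + h`, `h ∈ H`. -/
noncomputable def shape (H : Finset ℕ) : Finset ℤ[X] := H.image (fun h : ℕ => X + C (h : ℤ))

/-- The two shapes of prime quadruples. -/
def quad : Fin 2 → Finset ℕ := ![{0, 2, 6, 8}, {0, 4, 6, 10}]

open Pool.Agent.W123.RU Pool.Agent.H373R2.T7 Pool.Agent.TH464.PO Pool.Agent.W123.RP Pool.Agent.Q236.GW
open Pool.Agent.Y879.GL Pool.Agent.Q236.EV Pool.Agent.Q236.UL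

lemma QS_iff' (S : Finset ℤ[X]) (p m : ℕ) (hp : p.Prime) :
    QS S p m ↔ (p : ℤ) ∣ ∏ f ∈ S, f.eval (m : ℤ) := by
  have hpi : Prime (p : ℤ) := Nat.prime_iff_prime_int.1 hp
  rw [QS_iff, hpi.dvd_finsetProd_iff]

lemma nu_eq (S : Finset ℤ[X]) (p : ℕ) (hp : p.Prime) : nuB (QS S) p = ω S p := by
  unfold nuB ω
  exact card_iff _ _ (fun m _ => QS_iff' S p m hp)

lemma W_eq (y : ℝ) (S : Finset ℤ[X]) : Vq (QS S) ⌊y⌋₊ = W y S := by
  unfold Vq W
  have h1 : pz ⌊y⌋₊ = (Finset.Icc 1 ⌊y⌋₊).filter Nat.Prime := by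
    ext p
    rw [mem_pz, Finset.mem_filter, Finset.mem_Icc]
    exact ⟨fun h => ⟨⟨h.2.one_lt.le, h.1⟩, h.2⟩, fun h => ⟨h.1.2, h.2⟩⟩
  rw [h1]
  apply Finset.prod_congr rfl
  intro p hp
  rw [nu_eq S p (Finset.mem_filter.1 hp).2]

lemma W_eq' (y : ℕ) (S : Finset ℤ[X]) : Vq (QS S) y = W y S := by
  rw [← W_eq, Nat.floor_natCast]

lemma good_iff (X : ℕ) (S : Finset ℤ[X]) (r m : ℕ) :
    Sf (QS S) ⌊(X : ℝ) ^ (1 / (r : ℝ))⌋₊ m ↔ Good X S r m := by
  have h0 : (0 : ℝ) ≤ (X : ℝ) ^ (1 / (r : ℝ)) := by positivity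
  constructor
  · intro h q hq hqn f hf hd
    exact h q (mem_pz.2 ⟨Nat.le_floor hqn, hq⟩) ((QS_iff S q m).2 ⟨f, hf, hd⟩)
  · intro h q hq hQ
    obtain ⟨f, hf, hd⟩ := (QS_iff S q m).1 hQ
    exact h q (mem_pz.1 hq).2 (mem_pz' h0 hq) f hf hd

lemma next_iff {g : ℕ} (X r : ℕ) (S : Fin g → Finset ℤ[X]) (m m' : ℕ) :
    Nx (AnyT (fun i m => Sf (QS (S i)) ⌊(X : ℝ) ^ (1 / (r : ℝ))⌋₊ m)) m m' ↔ Next X r S m m' := by
  unfold Nx AnyT Next
  simp only [good_iff, not_exists]

lemma run_iff {g J : ℕ} (X r : ℕ) (S : Fin g → Finset ℤ[X]) (a : Fin J → Fin g) (T : Fin J → ℕ) (m : ℕ) :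
    FollowT (fun i m => Sf (QS (S i)) ⌊(X : ℝ) ^ (1 / (r : ℝ))⌋₊ m) a T m ↔ Run X r S a T m := by
  unfold FollowT Run
  simp only [next_iff]
  simp only [good_iff]

lemma total_eq {g : ℕ} (X r : ℕ) (S : Fin g → Finset ℤ[X]) :
    ∑ i, Vq (QS (S i)) ⌊(X : ℝ) ^ (1 / (r : ℝ))⌋₊ = total X r S := by
  unfold total
  exact Finset.sum_congr rfl fun i _ => W_eq _ _

lemma toAS {k D : ℕ} {S : Finset ℤ[X]} (h : Admissible k D S) : AS k D S where
  ps := ⟨h.irr, fun f hf => (h.deg f hf).1, h.lead⟩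
  ne := h.nonempty
  card := h.card
  degD f hf := (h.deg f hf).2
  adm p hp := by
    obtain ⟨m, _, hm⟩ := nu_exists (QS S) p (by rw [nu_eq S p hp]; exact h.adm p hp)
    exact ⟨m, fun f hf hd => hm ((QS_iff S p m).2 ⟨f, hf, hd⟩)⟩

lemma few (X r K m : ℕ) (hr : 1 ≤ r) (hX : 2 ^ r ≤ X) (hm : 0 < m) (hmX : m ≤ X ^ K)
    (h : ∀ p : ℕ, p.Prime → p ∣ m → (X : ℝ) ^ (1 / (r : ℝ)) < (p : ℝ)) :
    m.primeFactorsList.length ≤ K * r := by
  have hr0 : (r : ℝ) ≠ 0 := by exact_mod_cast (by omega : r ≠ 0)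
  have hX1 : (1 : ℝ) ≤ X := by
    have : 1 ≤ 2 ^ r := Nat.one_le_two_pow
    exact_mod_cast this.trans hX
  have hz1 : 1 ≤ (X : ℝ) ^ (1 / (r : ℝ)) := Real.one_le_rpow hX1 (by positivity)
  apply length_le m (K * r) (by omega) _ h _ hz1
  have e : ((X : ℝ) ^ (1 / (r : ℝ))) ^ r = X := by
    rw [← Real.rpow_natCast, ← Real.rpow_mul (by linarith), one_div, inv_mul_cancel₀ hr0, Real.rpow_one]
  have hmX' : (m : ℝ) ≤ (X : ℝ) ^ K := by exact_mod_cast hmX
  rw [pow_succ, mul_comm K r, pow_mul, e]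
  have h0 : (0 : ℝ) ≤ (X : ℝ) ^ K := by positivity
  nlinarith

lemma lin_as {k : ℕ} {H : Finset ℕ} (h0 : 0 ∈ H) (hk : H.card ≤ k)
    (hadm : ∀ p : ℕ, p.Prime → ∃ n : ℕ, ∀ h ∈ H, ¬ p ∣ n + h) : AS k 1 (shape H) where
  ps := by
    refine ⟨?_, ?_, ?_⟩
    · intro f hf
      unfold shape at hf
      rw [mem_image] at hf
      obtain ⟨h, _, rfl⟩ := hf
      have e : (X + C (h : ℤ) : ℤ[X]) = X - C (-(h : ℤ)) := by rw [C_neg, sub_neg_eq_add]
      rw [e]
      exact irreducible_X_sub_C _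
    · intro f hf
      unfold shape at hf
      rw [mem_image] at hf
      obtain ⟨h, _, rfl⟩ := hf
      rw [natDegree_X_add_C]
      exact one_pos
    · intro f hf
      unfold shape at hf
      rw [mem_image] at hf
      obtain ⟨h, _, rfl⟩ := hf
      rw [leadingCoeff_X_add_C]
      exact one_pos
  ne := ⟨_, mem_image_of_mem _ h0⟩
  card := card_image_le.trans hk
  degD f hf := by
    unfold shape at hf
    rw [mem_image] at hf
    obtain ⟨h, _, rfl⟩ := hf
    rw [natDegree_X_add_C]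
  adm p hp := by
    obtain ⟨n, hn⟩ := hadm p hp
    refine ⟨n, ?_⟩
    intro f hf hd
    unfold shape at hf
    rw [mem_image] at hf
    obtain ⟨h, hh, rfl⟩ := hf
    apply hn h hh
    rw [eval_add, eval_X, eval_C] at hd
    exact_mod_cast hd

lemma lin_ne {H H' : Finset ℕ} (h0 : 0 ∈ H) (hne : H ≠ H') (h : ℕ) :
    shape H ≠ sh (h : ℤ) (shape H') := by
  intro he
  have h1 : (X + C ((0 : ℕ) : ℤ) : ℤ[X]) ∈ shape H := mem_image_of_mem _ h0
  rw [he] at h1
  unfold sh shape at h1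
  rw [mem_image] at h1
  obtain ⟨g, hg, hge⟩ := h1
  rw [mem_image] at hg
  obtain ⟨a, ha, rfl⟩ := hg
  have h2 := congrArg (eval 0) hge
  simp only [eval_comp, eval_add, eval_X, eval_C, zero_add] at h2
  have h3 : h = 0 := by
    have : h + a = 0 := by exact_mod_cast h2
    omega
  rw [h3] at he
  have h4 : sh ((0 : ℕ) : ℤ) (shape H') = shape H' := by
    unfold sh
    simp
  rw [h4] at he
  apply hne
  have hinj : Function.Injective (fun h : ℕ => (X + C (h : ℤ) : ℤ[X])) := by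
    intro a b hab
    have h5 := congrArg (eval 0) hab
    simp only [eval_add, eval_X, eval_C, zero_add] at h5
    exact_mod_cast h5
  exact Finset.image_injective hinj he

open Classical in
lemma law_of {g J : ℕ} (X r : ℕ) (S : Fin g → Finset ℤ[X]) (Λ ε : ℝ) (Z Y : ℕ)
    (h : ∀ (i0 : Fin g) (a : Fin J → Fin g) (T : Fin J → ℕ),
      (∀ j, T j * (∑ i, Vq (QS (S i)) ⌊(X : ℝ) ^ (1 / (r : ℝ))⌋₊) ≤ Λ) →
      |(((Ioc Z (Z + Y)).filter (fun m => Sf (QS (S i0)) ⌊(X : ℝ) ^ (1 / (r : ℝ))⌋₊ m ∧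
          FollowT (fun i m => Sf (QS (S i)) ⌊(X : ℝ) ^ (1 / (r : ℝ))⌋₊ m) a T m)).card : ℝ) -
        Y * Vq (QS (S i0)) ⌊(X : ℝ) ^ (1 / (r : ℝ))⌋₊ *
          ((∏ j, (Vq (QS (S (a j))) ⌊(X : ℝ) ^ (1 / (r : ℝ))⌋₊ /
            ∑ i, Vq (QS (S i)) ⌊(X : ℝ) ^ (1 / (r : ℝ))⌋₊)) *
          Real.exp (-∑ j, T j * ∑ i, Vq (QS (S i)) ⌊(X : ℝ) ^ (1 / (r : ℝ))⌋₊))| ≤
        ε * (Y * ∑ i, Vq (QS (S i)) ⌊(X : ℝ) ^ (1 / (r : ℝ))⌋₊)) :
    Law (J := J) X r S Λ ε Z Y := by
  intro i a T hT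
  have h1 := h i a T (fun j => by rw [total_eq]; exact hT j)
  simp only [total_eq] at h1
  simp only [W_eq] at h1
  convert h1 using 5
  ext m
  rw [mem_filter, mem_filter, good_iff, run_iff]

/-! ### The two shapes of quadruples -/

lemma omega_shape (H : Finset ℕ) (p : ℕ) (hp : p.Prime) : ω (shape H) p = (H.image (fun h => h % p)).card := by
  classical
  have hp0 : 0 < p := hp.pos
  unfold ω
  have h1 : (Finset.range p).filter (fun n : ℕ => (p : ℤ) ∣ ∏ f ∈ shape H, f.eval (n : ℤ)) =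
      (H.image (fun h => h % p)).image (fun s => (p - s) % p) := by
    ext n
    rw [mem_filter, mem_range, ← QS_iff' _ _ _ hp, QS_iff, Finset.image_image, mem_image]
    constructor
    · rintro ⟨hn, f, hf, hd⟩
      unfold shape at hf
      rw [mem_image] at hf
      obtain ⟨h, hh, rfl⟩ := hf
      refine ⟨h, hh, ?_⟩
      rw [eval_add, eval_X, eval_C] at hd
      have hd' : p ∣ n + h := by exact_mod_cast hd
      simp only [Function.comp]
      have h2 : h % p < p := Nat.mod_lt _ hp0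
      have h3 : p ∣ n + h % p := (Nat.dvd_iff_mod_eq_zero).2 (by
        rw [Nat.add_mod, Nat.mod_mod, ← Nat.add_mod]
        exact (Nat.dvd_iff_mod_eq_zero).1 hd')
      obtain ⟨q, hq⟩ := h3
      have hq2 : q < 2 := by
        by_contra hcon
        have : p * 2 ≤ p * q := Nat.mul_le_mul_left p (not_lt.1 hcon)
        omega
      rcases Nat.lt_or_ge 0 q with h4 | h4
      · have : q = 1 := by omega
        subst this
        by_cases h5 : h % p = 0
        · omega
        · rw [Nat.mod_eq_of_lt (by omega)]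
          omega
      · have : q = 0 := by omega
        subst this
        have h5 : h % p = 0 := by omega
        have h6 : n = 0 := by omega
        rw [h5, h6]
        simp
    · rintro ⟨h, hh, rfl⟩
      refine ⟨Nat.mod_lt _ hp0, X + C (h : ℤ), mem_image_of_mem _ hh, ?_⟩
      rw [eval_add, eval_X, eval_C]
      simp only [Function.comp]
      have h2 : h % p < p := Nat.mod_lt _ hp0
      have h3 : p ∣ (p - h % p) % p + h := (Nat.dvd_iff_mod_eq_zero).2 (by
        rw [Nat.mod_add_mod, Nat.add_mod, ← Nat.mod_mod h p, ← Nat.add_mod, Nat.mod_mod]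
        have : p - h % p + h % p = p := by omega
        rw [this, Nat.mod_self])
      exact_mod_cast h3
  rw [h1]
  apply card_image_of_injOn
  intro a ha b hb hab
  rw [Finset.mem_coe, mem_image] at ha hb
  obtain ⟨a', _, rfl⟩ := ha
  obtain ⟨b', _, rfl⟩ := hb
  have ha2 : a' % p < p := Nat.mod_lt _ hp0
  have hb2 : b' % p < p := Nat.mod_lt _ hp0
  simp only at hab ⊢
  by_cases h3 : a' % p = 0
  · by_cases h4 : b' % p = 0
    · rw [h3, h4]
    · rw [h3, Nat.sub_zero, Nat.mod_self, Nat.mod_eq_of_lt (by omega)] at hab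
      omega
  · by_cases h4 : b' % p = 0
    · rw [h4, Nat.sub_zero, Nat.mod_self, Nat.mod_eq_of_lt (by omega)] at hab
      omega
    · have e1 : (p - a' % p) % p = p - a' % p := Nat.mod_eq_of_lt (by omega)
      have e2 : (p - b' % p) % p = p - b' % p := Nat.mod_eq_of_lt (by omega)
      rw [e1, e2] at hab
      omega

lemma prime_cases (p : ℕ) (hp : p.Prime) : p = 2 ∨ p = 3 ∨ p = 5 ∨ p = 7 ∨ 11 ≤ p := by
  by_contra hcon
  push Not at hcon
  obtain ⟨h1, h2, h3, h4, h5⟩ := hcon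
  have h6 := hp.two_le
  interval_cases p <;> first | omega | (revert hp; decide)

lemma image_mod_big (H : Finset ℕ) (p : ℕ) (h : ∀ x ∈ H, x < p) : H.image (fun h => h % p) = H := by
  have : H.image (fun h => h % p) = H.image id := Finset.image_congr fun x hx => Nat.mod_eq_of_lt (h x hx)
  rw [this, Finset.image_id]

lemma omega_quad (p : ℕ) (hp : p.Prime) : ω (shape (quad 0)) p = (if p = 2 then 1 else if p = 3 then 2 else 4) ∧
    ω (shape (quad 1)) p = (if p = 2 then 1 else if p = 3 then 2 else if p = 5 then 3 else 4) := by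
  rw [omega_shape _ p hp, omega_shape _ p hp]
  rcases prime_cases p hp with rfl | rfl | rfl | rfl | h
  · decide
  · decide
  · decide
  · decide
  · rw [image_mod_big, image_mod_big]
    · rw [if_neg (by omega), if_neg (by omega), if_neg (by omega), if_neg (by omega), if_neg (by omega)]
      decide
    · intro x hx
      have : ∀ x ∈ quad 1, x ≤ 10 := by decide
      have := this x hx
      omega
    · intro x hx
      have : ∀ x ∈ quad 0, x ≤ 10 := by decide
      have := this x hx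
      omega

/-- the second shape is exactly twice as frequent -/
lemma W_quad (y : ℝ) (hy : 5 ≤ y) : W y (shape (quad 1)) = 2 * W y (shape (quad 0)) := by
  unfold W
  have h1 : ∀ p ∈ (Finset.Icc 1 ⌊y⌋₊).filter Nat.Prime, (1 - (ω (shape (quad 1)) p : ℝ) / p) =
      (if p = 5 then 2 else 1) * (1 - (ω (shape (quad 0)) p : ℝ) / p) := by
    intro p hp
    rw [mem_filter] at hp
    obtain ⟨h2, h3⟩ := omega_quad p hp.2
    rw [h2, h3]
    by_cases h5 : p = 5
    · subst h5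
      norm_num
    · rw [if_neg h5, if_neg h5, one_mul]
  rw [Finset.prod_congr rfl h1, Finset.prod_mul_distrib, Finset.prod_ite_eq']
  rw [if_pos]
  rw [mem_filter, mem_Icc]
  exact ⟨⟨by norm_num, Nat.le_floor (by exact_mod_cast hy)⟩, by norm_num⟩

lemma quad_adm (i : Fin 2) (p : ℕ) (hp : p.Prime) : ∃ n : ℕ, ∀ h ∈ quad i, ¬ p ∣ n + h := by
  by_contra hcon
  push Not at hcon
  have h1 : ω (shape (quad i)) p = p := by
    unfold ω
    rw [Finset.filter_true_of_mem, card_range]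
    intro n _
    rw [← QS_iff' _ _ _ hp, QS_iff]
    obtain ⟨h, hh, hd⟩ := hcon n
    refine ⟨X + C (h : ℤ), mem_image_of_mem _ hh, ?_⟩
    rw [eval_add, eval_X, eval_C]
    exact_mod_cast hd
  have h2 := omega_quad p hp
  have h3 := hp.two_le
  have h4 : p = 2 ∨ p = 3 ∨ 5 ≤ p := by
    rcases prime_cases p hp with h | h | h | h | h
    · exact Or.inl h
    · exact Or.inr (Or.inl h)
    · exact Or.inr (Or.inr (by omega))
    · exact Or.inr (Or.inr (by omega))
    · exact Or.inr (Or.inr (by omega))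
  fin_cases i
  · have h5 := h2.1
    have h6 : ω (shape (quad 0)) p = p := h1
    rw [h6] at h5
    rcases h4 with h | h | h
    · rw [if_pos h] at h5
      omega
    · rw [if_neg (by omega), if_pos h] at h5
      omega
    · rw [if_neg (by omega), if_neg (by omega)] at h5
      omega
  · have h5 := h2.2
    have h6 : ω (shape (quad 1)) p = p := h1
    rw [h6] at h5
    rcases h4 with h | h | h
    · rw [if_pos h] at h5
      omega
    · rw [if_neg (by omega), if_pos h] at h5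
      omega
    · rw [if_neg (by omega), if_neg (by omega)] at h5
      split_ifs at h5 <;> omega

open Classical in
/-- **The shapes of consecutive almost prime quadruples are independent.** -/
theorem result (k D g J : ℕ) (Λ ε θ : ℝ) (hΛ : 0 ≤ Λ) (hε : 0 < ε) (hθ : 0 < θ) :
    (∀ S : Finset ℤ[X], Admissible k D S → ∃ c C : ℝ, 0 < c ∧ 0 < C ∧ ∀ y : ℕ, 3 ≤ y →
      c / Real.log y ^ S.card ≤ W y S ∧ W y S ≤ C / Real.log y ^ S.card) ∧
    (∀ (X r K : ℕ) (S : Finset ℤ[X]) (m : ℕ), 1 ≤ r → 2 ^ r ≤ X → Good X S r m →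
      ∀ f ∈ S, 0 < (f.eval (m : ℤ)).natAbs → (f.eval (m : ℤ)).natAbs ≤ X ^ K →
        (f.eval (m : ℤ)).natAbs.primeFactorsList.length ≤ K * r) ∧
    (∃ r₀ : ℕ, 2 ≤ r₀ ∧ ∀ r : ℕ, r₀ ≤ r → ∀ S : Fin g → Finset ℤ[X], (∀ i, Admissible k D (S i)) →
      (∀ i j, i ≠ j → ∀ h : ℕ, S i ≠ translate h (S j)) →
        ∀ᶠ X : ℕ in atTop, ∀ Z Y : ℕ, (X : ℝ) ^ θ ≤ Y → Law (J := J) X r S Λ ε Z Y) ∧
    (∀ y : ℝ, 5 ≤ y → W y (shape (quad 1)) = 2 * W y (shape (quad 0))) ∧
    (∃ r₀ : ℕ, 2 ≤ r₀ ∧ ∀ r : ℕ, r₀ ≤ r → ∀ᶠ X : ℕ in atTop, ∀ Z Y : ℕ, (X : ℝ) ^ θ ≤ Y →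
      ∀ (i : Fin 2) (a : Fin J → Fin 2) (T : Fin J → ℕ),
        (∀ j, T j * W ((X : ℝ) ^ (1 / (r : ℝ))) (shape (quad 0)) ≤ Λ) →
        |(((Finset.Ioc Z (Z + Y)).filter (fun m => Good X (shape (quad i)) r m ∧
            Run X r (fun i => shape (quad i)) a T m)).card : ℝ) -
          2 ^ ((i : ℕ) + ∑ j, (a j : ℕ)) / 3 ^ J * Real.exp (-(3 * W ((X : ℝ) ^ (1 / (r : ℝ))) (shape (quad 0)) *
            ∑ j, (T j : ℝ))) * (Y * W ((X : ℝ) ^ (1 / (r : ℝ))) (shape (quad 0)))| ≤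
          ε * (Y * W ((X : ℝ) ^ (1 / (r : ℝ))) (shape (quad 0)))) := by
  refine ⟨?_, ?_, ?_, W_quad, ?_⟩
  · intro S hS
    obtain ⟨v, Cv, hv, hCv, hV⟩ := as_V (toAS hS)
    refine ⟨v, Cv, hv, hCv, fun y hy => ?_⟩
    have h1 := hV y hy
    rwa [W_eq'] at h1
  · intro X r K S m hr hX hG f hf h1 h2
    apply few X r K _ hr hX h1 h2
    intro p hp hd
    by_contra hcon
    rw [not_lt] at hcon
    exact hG p hp hcon f hf (Int.natCast_dvd.2 hd)
  · obtain ⟨r₀, hr₀, h⟩ := shp_law (Fin g) k D J Λ ε hΛ hε θ hθ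
    refine ⟨r₀, hr₀, ?_⟩
    intro r hr S hS hne
    filter_upwards [h r hr S (fun i => toAS (hS i)) hne] with X hX
    intro Z Y hY
    exact law_of X r S Λ ε Z Y (fun i a T hT => hX i a T hT Z Y hY)
  · obtain ⟨r₀, hr₀, h⟩ := shp_law (Fin 2) 4 1 J (3 * Λ) (ε / 3) (by positivity) (by positivity) θ hθ
    refine ⟨r₀, hr₀, ?_⟩
    intro r hr
    have hr2 : 2 ≤ r := hr₀.trans hr
    have hrpos : (0 : ℝ) < r := by exact_mod_cast (by omega : 0 < r)
    have hpow : Tendsto (fun X : ℕ => (X : ℝ) ^ (1 / (r : ℝ))) atTop atTop :=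
      (tendsto_rpow_atTop (by positivity)).comp tendsto_natCast_atTop_atTop
    have h0q : ∀ i, 0 ∈ quad i := by decide
    have hcq : ∀ i, (quad i).card ≤ 4 := by decide
    have hiq : ∀ i j, i ≠ j → quad i ≠ quad j := by decide
    filter_upwards [h r hr (fun i => shape (quad i)) (fun i => lin_as (h0q i) (hcq i) (quad_adm i))
      (fun i j hij => lin_ne (h0q i) (hiq i j hij)), hpow.eventually_ge_atTop 5] with X hX hX5
    intro Z Y hY i a T hT
    have hW := W_quad _ hX5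
    obtain ⟨w, hw⟩ : ∃ w, w = W ((X : ℝ) ^ (1 / (r : ℝ))) (shape (quad 0)) := ⟨_, rfl⟩
    rw [← hw] at hW hT ⊢
    have hWi : ∀ i : Fin 2, W ((X : ℝ) ^ (1 / (r : ℝ))) (shape (quad i)) = 2 ^ (i : ℕ) * w := by
      intro i
      fin_cases i
      · simp [hw]
      · simpa using hW
    have htot : total X r (fun i => shape (quad i)) = 3 * w := by
      unfold total
      rw [Fin.sum_univ_two, hWi, hWi]
      norm_num
      ring
    have hlaw := law_of (J := J) X r (fun i => shape (quad i)) (3 * Λ) (ε / 3) Z Y (fun i a T hT => hX i a T hT Z Y hY)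
    have h1 := hlaw i a T (fun j => by
      rw [htot]
      have := hT j
      linarith)
    simp only [htot, hWi] at h1
    have hw0 : 0 < w := by
      rw [hw, ← W_eq]
      exact Vq_pos _ (as_adm (lin_as (k := 4) (h0q 0) (hcq 0) (quad_adm 0))) _
    have e1 : ∏ j, ((2 : ℝ) ^ (a j : ℕ) * w / (3 * w)) = 2 ^ (∑ j, (a j : ℕ)) / 3 ^ J := by
      have e2 : ∀ j, (2 : ℝ) ^ (a j : ℕ) * w / (3 * w) = 2 ^ (a j : ℕ) / 3 := by
        intro j
        field_simp
      rw [Finset.prod_congr rfl (fun j _ => e2 j), Finset.prod_div_distrib, Finset.prod_const, card_univ,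
        Fintype.card_fin, Finset.prod_pow_eq_pow_sum]
    have e3 : ∑ j, (T j : ℝ) * (3 * w) = 3 * w * ∑ j, (T j : ℝ) := by
      rw [Finset.mul_sum]
      exact Finset.sum_congr rfl fun j _ => mul_comm _ _
    rw [e1, e3] at h1
    have e4 : (Y : ℝ) * (2 ^ (i : ℕ) * w) * (2 ^ (∑ j, (a j : ℕ)) / 3 ^ J * Real.exp (-(3 * w * ∑ j, (T j : ℝ)))) =
        2 ^ ((i : ℕ) + ∑ j, (a j : ℕ)) / 3 ^ J * Real.exp (-(3 * w * ∑ j, (T j : ℝ))) * (Y * w) := by
      rw [pow_add]
      ring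
    have e5 : ε / 3 * ((Y : ℝ) * (3 * w)) = ε * (Y * w) := by ring
    rw [e4, e5] at h1
    exact h1

end Pool.Agent.Results.MP_092512_nt.IndependentShapes
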