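import Pool.Agent.Q173.TC.Main

/-!
# Szemerédi's theorem in the two classes of almost prime quadruples

Let `(0, h_0, h_1, h_2)` be an admissible quadruple (for example `(0, 2, 6, 8)` or `(0, 4, 6, 10)`) and `j` one of its
members. Class A consists of the `n` with `n` and `n + h_j` prime whose two other members have no prime factor
`≤ N ^ (1/t)`; this class contains the prime quadruples. Class B of a prime `q` consists of the prime `n` with
`n + h_j = q q'`, `q' ≥ q` prime, whose two other members have no prime factor `≤ N ^ (1/t)`. We show that for large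
`N` all dense subsets of class A, and for ALL primes `N ^ (1/9) < q ≤ (N + h_j) ^ (1/2)` at once all dense subsets of the
class B of `q`, in all windows, contain long progressions with a difference which is at most a power of `log N`
(times `q`); and one of the classes, with `q` in one set with `O((log log x) ^ 2)` elements up to `x`, which is the same
for all quadruples, has the right number of elements in the window.

Library: `Q173/TC` over `Q253/Thin`, `Y840.CT.GenF` (Chen's theorem for tuples in windows), `Y843.HS.Top` (Szemerédi's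
theorem relative to sifted sets).
-/

set_option autoImplicit false

namespace Pool.Agent.Results.MP_092512_nt.ProgressionsInEveryClass

open Pool.Agent.Q173.TC

/-- The shape `(p, p + 2, p + 6, p + 8)`. -/
def shape1 : Fin 3 → ℕ := ![2, 6, 8]

/-- The shape `(p, p + 4, p + 6, p + 10)`. -/
def shape2 : Fin 3 → ℕ := ![4, 6, 10]

lemma adm1 : Admissible shape1 where
  pos i := by fin_cases i <;> simp [shape1]
  inj := by decide
  loc q hq := by
    rcases Nat.lt_or_ge 8 q with h8 | h8
    · refine ⟨1, by omega, by omega, ?_⟩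
      intro i
      fin_cases i
      · simp only [shape1]
        change 2 % q ≠ 1
        rw [Nat.mod_eq_of_lt (by omega)]
        norm_num
      · change 6 % q ≠ 1
        rw [Nat.mod_eq_of_lt (by omega)]
        norm_num
      · change 8 % q ≠ 1
        rw [Nat.mod_eq_of_lt (by omega)]
        norm_num
    · have h2 := hq.two_le
      interval_cases q
      · exact ⟨1, by norm_num, by norm_num, by decide⟩
      · exact ⟨1, by norm_num, by norm_num, by decide⟩
      · exact absurd hq (by norm_num)
      · exact ⟨4, by norm_num, by norm_num, by decide⟩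
      · exact absurd hq (by norm_num)
      · exact ⟨3, by norm_num, by norm_num, by decide⟩
      · exact absurd hq (by norm_num)

lemma adm2 : Admissible shape2 where
  pos i := by fin_cases i <;> simp [shape2]
  inj := by decide
  loc q hq := by
    rcases Nat.lt_or_ge 10 q with h8 | h8
    · refine ⟨1, by omega, by omega, ?_⟩
      intro i
      fin_cases i
      · change 4 % q ≠ 1
        rw [Nat.mod_eq_of_lt (by omega)]
        norm_num
      · change 6 % q ≠ 1
        rw [Nat.mod_eq_of_lt (by omega)]
        norm_num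
      · change 10 % q ≠ 1
        rw [Nat.mod_eq_of_lt (by omega)]
        norm_num
    · have h2 := hq.two_le
      interval_cases q
      · exact ⟨1, by norm_num, by norm_num, by decide⟩
      · exact ⟨2, by norm_num, by norm_num, by decide⟩
      · exact absurd hq (by norm_num)
      · exact ⟨2, by norm_num, by norm_num, by decide⟩
      · exact absurd hq (by norm_num)
      · exact ⟨1, by norm_num, by norm_num, by decide⟩
      · exact absurd hq (by norm_num)
      · exact absurd hq (by norm_num)
      · exact absurd hq (by norm_num)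

/-- Both shapes of prime quadruples are admissible. There are `t₀ ≥ 9`, a set `Q` of primes and `C, c > 0` such that `Q`
has at most `C (log log x) ^ 2` elements up to `x`, for all `x ≥ 16`, and for all `t ≥ t₀`, all admissible
`(h_0, h_1, h_2)`, all members `j`, all `k`, `δ > 0`, `θ > 0` there are `D` and `N₀` such that for all `N ≥ N₀` and all
`0 ≤ u < v ≤ N` with `v - u ≥ θ N`:

(A) every set `S` of integers `u < n ≤ v` such that `n`, `n + h_j` are prime and the two other `n + h_i` have no prime
factor `≤ N ^ (1/t)` (for example: prime quadruples) with at least `δ (v - u) / log ^ 4 N` elements contains `k` terms of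
an arithmetic progression with difference `1 ≤ d ≤ log ^ D N`;

(B) for every prime `q` with `N ^ (1/9) < q`, `q ^ 2 ≤ N + h_j`, every set `S` of integers `u < n ≤ v` such that `n` is
prime, `n + h_j = q q'` with a prime `q' ≥ q` and the two other `n + h_i` have no prime factor `≤ N ^ (1/t)` with at least
`δ (v - u) / (q log ^ 4 N)` elements contains `k` terms of an arithmetic progression with difference `q d`,
`1 ≤ d ≤ log ^ D N`;

(C) at least `c (v - u) / log ^ 4 N` integers `u < n ≤ v` are as in (A), or for some `q ∈ Q` as in (B) at least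
`c (v - u) / (q log ^ 4 N)` of them are as in (B). -/
theorem result : Admissible shape1 ∧ Admissible shape2 ∧
    ∃ (t₀ : ℕ) (Q : Set ℕ) (C c : ℝ), 9 ≤ t₀ ∧ 0 < C ∧ 0 < c ∧ (∀ q ∈ Q, q.Prime) ∧
    (∀ x : ℕ, 16 ≤ x → ((Q ∩ Set.Iic x).ncard : ℝ) ≤ C * Real.log (Real.log x) ^ 2) ∧
    ∀ t : ℕ, t₀ ≤ t → ∀ h : Fin 3 → ℕ, Admissible h → ∀ j : Fin 3,
    ∀ (k : ℕ) (δ θ : ℝ), 0 < δ → 0 < θ → ∃ D N₀ : ℕ, ∀ N : ℕ, N₀ ≤ N → ∀ u v : ℕ, v ≤ N →
      θ * N ≤ (v : ℝ) - u →
      (∀ S : Finset ℕ, (∀ n ∈ S, u < n ∧ n ≤ v ∧ ClassA h j ((N : ℝ) ^ (1 / (t : ℝ))) n) →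
        δ * (((v : ℝ) - u) / Real.log N ^ 4) ≤ S.card → HasProg k 1 (Real.log N ^ D) S) ∧
      (∀ q : ℕ, q.Prime → (N : ℝ) ^ (1 / 9 : ℝ) < q → q ^ 2 ≤ N + h j →
        ∀ S : Finset ℕ, (∀ n ∈ S, u < n ∧ n ≤ v ∧ ClassB h j ((N : ℝ) ^ (1 / (t : ℝ))) q n) →
        δ * (((v : ℝ) - u) / (q * Real.log N ^ 4)) ≤ S.card → HasProg k q (Real.log N ^ D) S) ∧
      (c * (((v : ℝ) - u) / Real.log N ^ 4) ≤ (count (ClassA h j ((N : ℝ) ^ (1 / (t : ℝ)))) u v : ℝ) ∨
        ∃ q ∈ Q, (N : ℝ) ^ (1 / 9 : ℝ) < q ∧ q ^ 2 ≤ N + h j ∧
          c * (((v : ℝ) - u) / (q * Real.log N ^ 4)) ≤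
            (count (ClassB h j ((N : ℝ) ^ (1 / (t : ℝ))) q) u v : ℝ)) :=
  ⟨adm1, adm2, main 3⟩

end Pool.Agent.Results.MP_092512_nt.ProgressionsInEveryClass
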