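import Pool.Agent.Q13.TU.Lim

/-!
# The prime quadruples of both shapes in random unions of residue classes

The shapes are `{0, 2, 6, 8}` with the constant `E` and `{0, 4, 6, 10}` with the constant `2 E`. If the expected
asymptotics fails for one of them, for all integers or for one union of residue classes, then it fails along almost
all unions of admissible residue classes to every modulus.

Method: the number of the quadruples in one class modulo `P` is at most `C / ν(P)` times the expected order, by the
sieve bound for the mean of the product of the `Λ (n + h)` along a class; the deviations of the classes are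
many small numbers with a large sum of absolute values at some arbitrarily large places, and their subset sums are
spread out (anticoncentration, library `Pool.Agent.Q197.PS`).
-/

set_option autoImplicit false

open Finset Filter Topology

namespace Pool.Agent.Results.MP_092512_nt.QuadruplesInUnions

open Pool.Agent.Q13.TU

/-- The shifts of the two shapes. -/
def shape (s : Fin 2) : Finset ℕ := if s = 0 then {0, 2, 6, 8} else {0, 4, 6, 10}

/-- The expected constants of the two shapes. -/
noncomputable def const (E : ℝ) (s : Fin 2) : ℝ := if s = 0 then E else 2 * E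

/-- The residue classes `a` modulo `P` for which all `a + h`, `h ∈ shape s`, are prime to `P`. -/
def classes (s : Fin 2) (P : ℕ) : Finset ℕ :=
  (range P).filter (fun a => ∀ h ∈ shape s, (a + h).Coprime P)

/-- The number of the `n ≤ N` in the classes `A` modulo `P` such that all `n + h`, `h ∈ shape s`, are primes. -/
def count (s : Fin 2) (P : ℕ) (A : Finset ℕ) (N : ℕ) : ℕ :=
  ((range (N + 1)).filter (fun n => (∀ h ∈ shape s, (n + h).Prime) ∧ n % P ∈ A)).card

/-- The set `A` of classes modulo `P` is right: the number of the quadruples of the shape `s` in `A` has the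
asymptotics `(#A / #classes) (const E s) N / log ^ 4 N`. -/
def IsRight (E : ℝ) (s : Fin 2) (P : ℕ) (A : Finset ℕ) : Prop :=
  Tendsto (fun N : ℕ => (count s P A N : ℝ) * Real.log N ^ 4 / N) atTop
    (𝓝 (const E s * A.card / (classes s P).card))

open Classical in
/-- The number of the right sets of admissible classes modulo `P`. -/
noncomputable def numRight (E : ℝ) (s : Fin 2) (P : ℕ) : ℕ :=
  ((classes s P).powerset.filter (fun A => IsRight E s P A)).card

/-- The question, as in the frozen statement `S15941`. -/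
def Question : Prop :=
  ∃ C : ℝ,
    Tendsto (fun N : ℕ => ∏ p ∈ (range N).filter (fun p => p.Prime ∧ 3 < p),
        ((p : ℝ) ^ 3 * ((p : ℝ) - 4) / ((p : ℝ) - 1) ^ 4)) atTop (nhds C) ∧
    Asymptotics.IsEquivalent atTop
      (fun n : ℕ => ((((range (n + 1)).filter (fun p =>
          p.Prime ∧ (p + 2).Prime ∧ (p + 6).Prime ∧ (p + 8).Prime)).card : ℕ) : ℝ))
      (fun n : ℕ => (27 / 2 : ℝ) * C * (n : ℝ) / Real.log (n : ℝ) ^ 4) ∧
    Asymptotics.IsEquivalent atTop
      (fun n : ℕ => ((((range (n + 1)).filter (fun p =>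
          p.Prime ∧ (p + 4).Prime ∧ (p + 6).Prime ∧ (p + 10).Prime)).card : ℕ) : ℝ) / 2)
      (fun n : ℕ => (27 / 2 : ℝ) * C * (n : ℝ) / Real.log (n : ℝ) ^ 4)

lemma adm_shape (s : Fin 2) : IsAdm (shape s) := by
  unfold shape
  split_ifs
  · exact adm0268
  · exact adm04610

lemma card_shape (s : Fin 2) : (shape s).card = 4 := by
  unfold shape
  split_ifs <;> rfl

lemma right_eq (E : ℝ) (s : Fin 2) (P : ℕ) (A : Finset ℕ) :
    IsRight E s P A ↔ Right (shape s) (const E s) P A := by
  unfold Right
  rw [card_shape]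
  exact Iff.rfl

lemma num_eq (E : ℝ) (s : Fin 2) (P : ℕ) : numRight E s P = nR (shape s) (const E s) P := by
  classical
  unfold numRight nR
  simp only [right_eq]
  congr

theorem result :
    ∃ E : ℝ, 0 < E ∧
      Tendsto (fun N : ℕ => (27 / 2 : ℝ) * ∏ p ∈ (range N).filter (fun p => p.Prime ∧ 3 < p),
        ((p : ℝ) ^ 3 * ((p : ℝ) - 4) / ((p : ℝ) - 1) ^ 4)) atTop (nhds E) ∧
      -- the zero-one law for each of the two shapes
      (∀ (s : Fin 2) (q : ℕ) (B : Finset ℕ), 0 < q → B ⊆ classes s q → ¬ IsRight E s q B →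
        ∃ C : ℝ, 0 < C ∧ ∀ P : ℕ, 0 < P → q ∣ P →
          (numRight E s P : ℝ) ≤ C * 2 ^ (classes s P).card / √((classes s P).card : ℝ)) ∧
      -- the asymptotics in all progressions
      (∀ s : Fin 2, (∀ q : ℕ, 0 < q → ∀ B ⊆ classes s q, IsRight E s q B) ↔
        ∀ q : ℕ, 0 < q → ∀ M : ℝ, ∃ P : ℕ, 0 < P ∧ q ∣ P ∧
          M * 2 ^ (classes s P).card / √((classes s P).card : ℝ) ≤ numRight E s P) ∧
      -- the question
      (Question ↔ ∀ s : Fin 2, IsRight E s 1 {0}) ∧
      ((∀ s : Fin 2, ∀ M : ℝ, ∃ P : ℕ, 0 < P ∧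
        M * 2 ^ (classes s P).card / √((classes s P).card : ℝ) ≤ numRight E s P) → Question) := by
  obtain ⟨C, hC, hlim⟩ := lim4
  have hE : 0 < 27 / 2 * C := by positivity
  have hQ : Question ↔ ∀ s : Fin 2, IsRight (27 / 2 * C) s 1 {0} := by
    have e1 : IsRight (27 / 2 * C) 0 1 {0} ↔ Asymptotics.IsEquivalent atTop
        (fun n : ℕ => ((((range (n + 1)).filter (fun p =>
          p.Prime ∧ (p + 2).Prime ∧ (p + 6).Prime ∧ (p + 8).Prime)).card : ℕ) : ℝ))
        (fun n : ℕ => (27 / 2 : ℝ) * C * (n : ℝ) / Real.log (n : ℝ) ^ 4) := by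
      rw [right_eq]
      refine (right_one {0, 2, 6, 8} (27 / 2 * C)).trans (Iff.trans ?_ (equiv_iff hE 4).symm)
      have : ∀ N : ℕ, (range (N + 1)).filter (fun n => ∀ h ∈ ({0, 2, 6, 8} : Finset ℕ),
          (n + h).Prime) = (range (N + 1)).filter (fun p => p.Prime ∧ (p + 2).Prime ∧
            (p + 6).Prime ∧ (p + 8).Prime) := by
        intro N
        refine filter_congr fun n _ => ?_
        simp only [forall_mem_insert, mem_singleton, forall_eq, add_zero]
      simp_rw [this]
      rfl
    have e2 : IsRight (27 / 2 * C) 1 1 {0} ↔ Asymptotics.IsEquivalent atTop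
        (fun n : ℕ => ((((range (n + 1)).filter (fun p =>
          p.Prime ∧ (p + 4).Prime ∧ (p + 6).Prime ∧ (p + 10).Prime)).card : ℕ) : ℝ) / 2)
        (fun n : ℕ => (27 / 2 : ℝ) * C * (n : ℝ) / Real.log (n : ℝ) ^ 4) := by
      rw [right_eq]
      refine (right_one {0, 4, 6, 10} (2 * (27 / 2 * C))).trans
        (Iff.trans ?_ (equiv_iff hE 4).symm)
      have : ∀ N : ℕ, (range (N + 1)).filter (fun n => ∀ h ∈ ({0, 4, 6, 10} : Finset ℕ),
          (n + h).Prime) = (range (N + 1)).filter (fun p => p.Prime ∧ (p + 4).Prime ∧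
            (p + 6).Prime ∧ (p + 10).Prime) := by
        intro N
        refine filter_congr fun n _ => ?_
        simp only [forall_mem_insert, mem_singleton, forall_eq, add_zero]
      simp_rw [this]
      have e3 : ({0, 4, 6, 10} : Finset ℕ).card = 4 := rfl
      rw [e3]
      constructor
      · intro h
        have h1 := h.const_mul (1 / 2)
        have e4 : 1 / 2 * (2 * (27 / 2 * C)) = 27 / 2 * C := by ring
        rw [e4] at h1
        refine h1.congr fun n => ?_
        ring
      · intro h
        have h1 := h.const_mul 2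
        refine h1.congr fun n => ?_
        ring
    have e3 : (∀ s : Fin 2, IsRight (27 / 2 * C) s 1 {0}) ↔
        IsRight (27 / 2 * C) 0 1 {0} ∧ IsRight (27 / 2 * C) 1 1 {0} := by
      rw [Fin.forall_fin_two]
    rw [e3, e1, e2]
    constructor
    · rintro ⟨C', h1, h2, h3⟩
      have : C' = C := tendsto_nhds_unique h1 hlim
      rw [this] at h2 h3
      exact ⟨h2, h3⟩
    · rintro ⟨h2, h3⟩
      exact ⟨C, hlim, h2, h3⟩
  refine ⟨27 / 2 * C, hE, hlim.const_mul _, ?_, ?_, hQ, fun h => hQ.2 fun s => ?_⟩
  · intro s q B hq hB h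
    rw [right_eq] at h
    obtain ⟨C', hC', h1⟩ := zero_one (adm_shape s) hq hB h
    refine ⟨C', hC', fun P hP hd => ?_⟩
    rw [num_eq]
    exact h1 P hP hd
  · intro s
    simp only [right_eq, num_eq]
    exact all_iff (adm_shape s) _
  · rw [right_eq]
    refine right_of_share (adm_shape s) one_pos (by rw [Adm_one]) fun M => ?_
    obtain ⟨P, hP, h1⟩ := h s M
    rw [num_eq] at h1
    exact ⟨P, hP, one_dvd _, h1⟩

end Pool.Agent.Results.MP_092512_nt.QuadruplesInUnions
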